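import Mathlib
import Pool.Agent.K7.H35.TI.Descent

/-!
# The Tate conjecture for products of abelian varieties over finite fields in dependent CM fields

Over an algebraic closure of the field with `p` elements each abelian variety is isogenous to the
reduction of an abelian variety of CM type (Honda, Tate). So an abelian variety over the field with
`p ^ a` elements is modelled by `RedAV`: a finite product of CM types `(E i, Φ i)` with Weil numbers
`π i ∈ E i` that satisfy the formula of Shimura and Taniyama; its cohomology of degree `n`, with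
coefficients in an algebraically closed field `Ω`, consists of the alternating `n`-forms on
`Ω ⊗ H_1`, on which the Frobenius endomorphism acts by `π`. We fix an isomorphism `ν` of the algebraic
closure of `ℚ_p` with `ℂ`; it defines a `p`-adic valuation of `ℂ`, with the value one at `p`.

Let `K i`, `i ∈ I`, be finitely many CM fields. Integral weights `M i` on the complex embeddings of
`K i`, invariant under complex conjugation, a CM type `Φ i` of `K i` and a real number `κ i ≠ 0`
prescribe the slopes `(a + κ M) / 2` (at the embeddings in `Φ i`) and `(a - κ M) / 2` (outside of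
`Φ i`) of a Weil number in `K i`. `GS.OfTypes K M Φ Y` means that each factor of `Y` is supersingular
or has a Frobenius endomorphism some power of which is, for some `i`, a Weil number in `K i` with the
slopes prescribed by `M i`, `Φ i` and `κ i` (`κ i` depends only on `Y` and `i`). `Holds ν K M Φ` is the
Tate conjecture for all these `Y`: all Tate classes, of all degrees and over all finite extensions of
the base field, are in `Alg Ω Y`, the span of the classes obtained from classes of divisors (and the
split Weil classes of degree four and six of the liftings, which are algebraic by Markman) by cup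
products, pull-backs and push-forwards.

The hand-ins on products with factors in several given CM fields (the starting theorems, and
`RigidSlopes`) need fields `K i` that are pairwise independent. Here **no independence of the fields is
assumed**: they may be equal, contained in each other, or have the same Galois closure.

**Theorem.**

1. (Criterion.) Let `ε i ψ = M i ψ` for `ψ ∈ Φ i` and `ε i ψ = - M i ψ` for `ψ ∉ Φ i` (so `κ ε` is
   twice the slope minus `a`). Suppose there are no purely imaginary elements `x i ∈ K i`, not all
   zero, with `∑ i, ∑ ψ, ε i ψ * ψ (x i) = 0` (`TraceIndep`). Then the Tate conjecture holds.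
2. (K3 type.) Let `φ i` be a complex embedding of `K i`, and suppose that purely imaginary numbers
   `z i ∈ φ i (K i)` that are not all zero do not have the sum zero (`ImaginaryIndependent`). If all
   slopes of the Weil number in `K i` are `a / 2` but those at `φ i` and its conjugate, for all
   `i`, the Tate conjecture holds. (For one field this is a theorem of Zarhin, and the condition on
   `φ` is no condition. For imaginary quadratic fields the condition means that they are different.)
3. (Dominated slopes.) If `φ` is as in (2), there is a positive integer `N` such that the Tate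
   conjecture holds for all weights `M` that are dominated at the embeddings `φ i` up to `N`
   (`DominatedAt`), and all CM types: `M i (φ i) ≠ 0`, and, for some prime number `l`, all weights
   `M i ψ` at other embeddings are divisible by a larger power of `l` than `N * M i (φ i)`; or,
   the sum over all `i` and all other embeddings of `|M i ψ| / |M i (φ i)|` is less than `1 / N`.
4. (Real intersections.) Suppose that `I` is ordered, and each of the fields `φ i (K i)` meets the
   compositum of the fields `φ k (K k)`, `k < i`, in a real field (`RealMeets`). Then the condition of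
   (2) holds, and, for odd prime numbers `l`, one can take `N = 1` in the first case of (3)
   (`AdicDominated`).

The proof. A multiplicative relation between the Frobenius eigenvalues gives functions `c i`, odd
with respect to complex conjugation, on the embeddings of the `K i` such that
`∑ i, ∑ φ, c i φ * ε i (g φ) = 0` for all `g` in the Galois group `G` of a Galois closure `L`. For
`θ ∈ L` the elements `∑ τ, c i (τ⁻¹ φ) τ θ` (`τ ∈ G`) are `φ (x i)` for a purely imaginary element
`x i` of `K i`, and the sum in (1) is zero for these `x i`. So `x i = 0` for all `θ`, and `c = 0` by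
Dedekind's independence of characters. For (3) the integral matrix of the relations of (2) has a left
inverse up to an integer `D`, which bounds the relations of nearby slopes, in all absolute values of
the rational numbers. For (4), modulo `l` the last of the nonzero functions `g ↦ c i (g φ i)` is
invariant under the groups that belong to `φ i (K i)` and to the compositum of the previous fields; so
it is invariant under complex conjugation.
-/

set_option autoImplicit false

namespace Pool.Agent.Results.MP_ee618e_ag.DependentFields

open NumberField Module Pool.Agent.H204R3.CM Pool.Agent.H977R3.CM Pool.Agent.TH170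
  Pool.Agent.K7.H35.TI

open Pool.Agent.W495.TA Pool.Agent.W547.KB

/-- The Tate conjecture for all abelian varieties `Y` with the slope types `Φ`: all Tate classes over
finite extensions are in `Alg Ω Y`. -/
def Holds {p : ℕ} [Fact p.Prime] (ν : PadicAlgCl p ≃+* ℂ) {I : Type} (K : I → Type)
    [∀ i, Field (K i)] (M : ∀ i, (K i →+* ℂ) → ℤ) (Φ : ∀ i, Set (K i →+* ℂ)) : Prop :=
  ∀ (Ω : Type) [Field Ω] [CharZero Ω] [IsAlgClosed Ω] (Y : RedAV p ν), GS.OfTypes K M Φ Y →
    ∀ (s m : ℕ) (f : (TM Ω Y) [⋀^Fin (2 * m)]→ₗ[Ω] Ω), 0 < s → IsTateClass Ω Y s m f →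
      Alg Ω Y (Fin (2 * m)) f

/-- The weights are zero at all embeddings but `φ i` and its conjugate (K3 type). -/
def IsK3 {I : Type} {K : I → Type} [∀ i, Field (K i)] (φ : ∀ i, K i →+* ℂ)
    (M : ∀ i, (K i →+* ℂ) → ℤ) : Prop :=
  ∀ i, M i (φ i) ≠ 0 ∧
    ∀ ψ : K i →+* ℂ, ψ ≠ φ i → ψ ≠ ComplexEmbedding.conjugate (φ i) → M i ψ = 0

theorem holds_of_triv {p : ℕ} [Fact p.Prime] {ν : PadicAlgCl p ≃+* ℂ} {I : Type} [Fintype I]
    {K : I → Type} [∀ i, Field (K i)] [∀ i, NumberField (K i)] [∀ i, IsCMField (K i)]
    {M : ∀ i, (K i →+* ℂ) → ℤ} (hM : ∀ i φ, M i (ComplexEmbedding.conjugate φ) = M i φ)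
    {Φ : ∀ i, Set (K i →+* ℂ)} (hΦ : ∀ i, IsCMType (Φ i))
    (h : Triv K (fun i ψ => CM.sgn (Φ i) ψ * M i ψ)) : Holds ν K M Φ := by
  intro Ω _ _ _ Y hY s m f hs hf
  refine TH117.BL.elementary Y (elementary_of_triv hM hΦ h hY) Ω Y (fun k => Or.inr
    ⟨k, RingHom.id _, 1, 1, one_pos, one_pos, rfl, rfl⟩) s m hs f hf

/-- **The Tate conjecture for products of abelian varieties over finite fields in dependent CM
fields.** -/
theorem result (p : ℕ) [Fact p.Prime] (ν : PadicAlgCl p ≃+* ℂ) (I : Type) [Fintype I]
    (K : I → Type) [∀ i, Field (K i)] [∀ i, NumberField (K i)] [∀ i, IsCMField (K i)] :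
    -- (1) the criterion
    (∀ M : ∀ i, (K i →+* ℂ) → ℤ, (∀ i φ, M i (ComplexEmbedding.conjugate φ) = M i φ) →
      ∀ Φ : ∀ i, Set (K i →+* ℂ), (∀ i, IsCMType (Φ i)) →
        TraceIndep K (fun i ψ => CM.sgn (Φ i) ψ * M i ψ) → Holds ν K M Φ) ∧
    -- (2), (3) slopes of K3 type and dominated slopes
    (∀ φ : ∀ i, K i →+* ℂ, ImaginaryIndependent K φ →
      (∀ M : ∀ i, (K i →+* ℂ) → ℤ, (∀ i φ, M i (ComplexEmbedding.conjugate φ) = M i φ) →
        IsK3 φ M → ∀ Φ : ∀ i, Set (K i →+* ℂ), (∀ i, IsCMType (Φ i)) → Holds ν K M Φ) ∧
      ∃ N : ℕ, 0 < N ∧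
        ∀ M : ∀ i, (K i →+* ℂ) → ℤ, (∀ i φ, M i (ComplexEmbedding.conjugate φ) = M i φ) →
          DominatedAt N φ M →
            ∀ Φ : ∀ i, Set (K i →+* ℂ), (∀ i, IsCMType (Φ i)) → Holds ν K M Φ) ∧
    -- (4) real intersections
    (∀ (_ : LinearOrder I) (φ : ∀ i, K i →+* ℂ), RealMeets K φ →
      ImaginaryIndependent K φ ∧
      ∀ l : ℕ, l.Prime → l ≠ 2 →
        ∀ M : ∀ i, (K i →+* ℂ) → ℤ, (∀ i φ, M i (ComplexEmbedding.conjugate φ) = M i φ) →
          AdicDominated l φ M →
            ∀ Φ : ∀ i, Set (K i →+* ℂ), (∀ i, IsCMType (Φ i)) → Holds ν K M Φ) := by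
  refine ⟨fun M hM Φ hΦ h => holds_of_triv hM hΦ (triv_of_traceIndep h), fun φ hφ => ?_,
    fun _ φ hφ => ⟨imaginaryIndependent_of_realMeets hφ, fun l hl hl2 M hM hdom Φ hΦ =>
      holds_of_triv hM hΦ (triv_of_realMeets hφ hl hl2 hM hdom hΦ)⟩⟩
  obtain ⟨N, hN, h⟩ := triv_of_dominatedAt hφ
  refine ⟨fun M hM hk Φ hΦ => ?_, N, hN, fun M hM hdom Φ hΦ =>
    holds_of_triv hM hΦ (h M hM hdom Φ hΦ)⟩
  refine holds_of_triv hM hΦ (h M hM ⟨fun i => (hk i).1, Or.inl ⟨2, Nat.prime_two,
    fun i ψ h1 h2 => ?_⟩⟩ Φ hΦ)
  rw [(hk i).2 ψ h1 h2]
  exact dvd_zero _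

end Pool.Agent.Results.MP_ee618e_ag.DependentFields
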