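import Pool.Agent.K7.H8.AV.Kron

/-!
# MP_ee618e_ag: the Tate conjecture for all powers of `A` follows from one explicit power

Let `A` be an abelian variety of dimension `g` over the field with `q` elements.  We describe `A` by
its first cohomology (`AVData`): a vector space `V` over a field `Ω` of characteristic zero (for
instance an algebraic closure of `ℚ_ℓ`) with the Frobenius `F`, which is semisimple with the
eigenvalues `α i`, `q / α i` (`i < g`), and with the ring `R` of endomorphisms of `A` (with Tate's
theorem, `TateEnd`).  The cohomology of `A ^ n` is the exterior algebra of `V ^ n` (`Coh`), and an
`AlgSystem` is a family of spaces of classes on all `A ^ n` with formal properties of the spans of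
the classes of algebraic cycles over the algebraic closure.

The eigenvalues are Weil numbers in a number field `K`, and `d` is a common denominator of the slopes
of `A` (the numbers `v (α i) / v (q)` for the places `v` of `K` above `p`).  The slopes of an abelian
variety of dimension `g` have denominators at most `2 g`, so that `d = (2 g)!` is always possible.

By Kronecker's theorem the relations between the eigenvalues are the integral solutions of a system of
linear equations with coefficients of absolute value at most `d`, and the bound comes from Cramer's
rule.
-/

set_option autoImplicit false

namespace Pool.Agent.Results.MP_ee618e_ag.EffectivePower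

open Pool.Agent.K7.H8.AV

/-- If all Tate classes on the single power `A ^ N`, `N = 2 * g * g! * d ^ g`, are algebraic, then all
Tate classes (over all finite extensions of the base field, of all degrees) on all powers `A ^ n` are
algebraic. -/
theorem result {Ω V : Type*} [Field Ω] [CharZero Ω] [AddCommGroup V] [Module Ω V] {g q : ℕ}
    (D : AVData Ω V g q) {K : Type*} [Field K] [NumberField K] (ι : K →+* Ω) (a : Fin g → K)
    (ha : ∀ i, ι (a i) = D.α i) (d : ℕ) (hd : 1 ≤ d) (hw : AreWeil q a) (hs : SlopesIn q d a)
    (S : AlgSystem D) (N : ℕ) (hN : N = 2 * g * (g.factorial * d ^ g))
    (hT : tateSpan D.F q N = S.cls N) (n : ℕ) : tateSpan D.F q n = S.cls n :=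
  effective_gen D ι ha hd hw hs S N hN hT n

end Pool.Agent.Results.MP_ee618e_ag.EffectivePower
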