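import Pool.Agent.K7.H9.TP.Pole

/-!
# The Tate conjecture for products of abelian varieties of dimension at most three over finite fields

An abelian variety over the field with `p ^ a` elements is modelled by `RedAV` (Honda, Tate: over an
algebraic closure each abelian variety is isogenous to a finite product of reductions of abelian
varieties of CM type): CM types `(E i, Φ i)` with Weil numbers `π i ∈ E i` that satisfy the formula of
Shimura and Taniyama. Its cohomology with coefficients in an algebraically closed field `Ω` consists of
the alternating forms on `TM Ω Y = Ω ⊗ H_1`, on which Frobenius acts by `π`.

Let `𝒜` be the system of all linear combinations of classes of algebraic cycles on abelian varieties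
over finite fields of characteristic `p`. The theorem only uses that it is stable (`IsStable`): it
contains the classes of degree zero and the Tate classes of degree two (theorem of Tate), and is stable
under linear combinations, cup products, pull-backs along homomorphisms and push-forwards along
projections.

**Theorem 1.** For every characteristic `p` the following are equivalent.

1. (`AllTate`) The Tate conjecture holds for all products `Y` of any number of abelian varieties of
   dimension at most three, in all degrees and over all finite fields.
2. (`FourTate`) It holds for cycles of codimension two on products of at most four abelian varieties
   of dimension at most three.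
3. (`FourHodge`) The reductions of the Hodge classes of degree four on products of at most four abelian
   varieties of CM type of dimension at most three are algebraic.

No hypothesis on Newton polygons, CM fields or their Galois groups is made. The condition 3. follows
from the Hodge conjecture for cycles of codimension two on products of four abelian threefolds of CM
type (dimension at most twelve).

**Theorem 2.** Let the coefficients be complex numbers, and let `C Y s n` be the space of the rational
linear combinations of the classes of algebraic cycles of codimension `n` on `Y` over the extension of
degree `s` of the ground field (`IsCycleTheory`). The conditions of Theorem 1 are equivalent to the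
following equality of numbers (`FourPole`): for all products `Y` of at most four abelian varieties of
dimension at most three and all `s` the order of the pole of the zeta function of `Y` (over the
extension of degree `s`) at `2` is the rank of the group of cycles of codimension two modulo numerical
equivalence. Then, moreover, this is true for all products of abelian varieties of dimension at most
three, in all codimensions, and numerically trivial cycles on them are homologically trivial
(`AllFormula`).

**Theorem 3.** All Tate classes are in `𝒜` for the abelian varieties `Y` of the following kinds
(`IsGoodAVP`): all abelian varieties of dimension at most five; all abelian varieties that are isogenous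
over an algebraic closure to a product of a supersingular abelian variety and of abelian varieties of
dimension at most three (any number, any multiplicity), such that any two factors of dimension three
whose CM fields have the same Galois closure satisfy one of the following: their fields are Galois over
`ℚ`; one of them is supersingular; they are isogenous; neither of them is ordinary and their `p`-ranks
are not `{1, 2}`. Here it is used (`HasKnownClasses`) that the reductions of split Weil classes on
abelian fourfolds and sixfolds, and the reductions of Hodge classes of degree four on products of
elliptic curves and abelian surfaces, are algebraic (theorems of Markman and Ramón Marí).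

Theorems 1 and 3 rest on `Pool.Agent.R937.TZ.tfae` and `Pool.Agent.R937.PG.main` of the starting
library, which are not stated by starting hand-ins for this problem; Theorem 2 is new: the order of the
pole is the dimension of the space of Tate classes, and classes of cycles which are linearly independent
over `ℚ` modulo numerical equivalence are linearly independent over `ℂ`, so the equality at `2` for
products of at most four factors gives 2. of Theorem 1.
-/

set_option autoImplicit false

namespace Pool.Agent.Results.MP_ee618e_ag.ProductsOfThreefolds

open Pool.Agent.W495.TA Pool.Agent.W547.DR Pool.Agent.K7.H9.TP
open Pool.Agent.R937.PG (IsGoodAVP)

/-- **The Tate conjecture** for products of abelian varieties of dimension at most three over finite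
fields. -/
theorem result (p : ℕ) [Fact p.Prime] (ν : PadicAlgCl p ≃+* ℂ) :
    (∀ (Ω : Type) [Field Ω] [IsAlgClosed Ω] [CharZero Ω] (𝒜 : Classes p ν Ω), IsStable 𝒜 →
      List.TFAE [AllTate 𝒜, FourTate 𝒜, FourHodge 𝒜] ∧
      (HasKnownClasses 𝒜 → ∀ Y : RedAV p ν, IsGoodAVP Y → TateOn 𝒜 Y)) ∧
    ∀ (𝒜 : Classes p ν ℂ) (C : ∀ Y : RedAV p ν, ℕ → Sys ℂ Y), IsCycleTheory 𝒜 C →
      List.TFAE [AllTate 𝒜, FourPole C, AllFormula C] :=
  ⟨fun Ω _ _ _ 𝒜 h𝒜 => ⟨tfae_tate h𝒜, fun hk Y hY s m hs f hf => mem_of_algS h𝒜 hk
    (Pool.Agent.R937.PG.main hY s m hs f hf)⟩, fun 𝒜 C hC => by
    have h := tfae_pole hC
    tfae_have 1 ↔ 2 := h.out 3 1
    tfae_have 1 ↔ 3 := h.out 3 2
    tfae_finish⟩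

end Pool.Agent.Results.MP_ee618e_ag.ProductsOfThreefolds
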