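import Mathlib
import Pool.Agent.K7.H7.AS.Nondeg
import Pool.Agent.TH170.GS.Rel
import Pool.Agent.TH117.BL.Main

/-!
# The Tate conjecture for abelian varieties over finite fields with rigid slopes, for all CM fields and
all CM types

Over an algebraic closure of the field with `p` elements each abelian variety is isogenous to the
reduction of an abelian variety of CM type (Honda, Tate). So an abelian variety over the field with
`p ^ a` elements is modelled by `RedAV`: a finite product of CM types `(E i, Φ i)` with Weil numbers
`π i ∈ E i` that satisfy the formula of Shimura and Taniyama; its cohomology of degree `n`, with
coefficients in an algebraically closed field `Ω`, consists of the alternating `n`-forms on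
`Ω ⊗ H_1`, on which the Frobenius endomorphism acts by `π`. We fix an isomorphism `ν` of the algebraic
closure of `ℚ_p` with `ℂ`; it defines a `p`-adic valuation of `ℂ`, with the value one at `p`.

Let `K` be a CM field of degree `2 g`, and let `M` be a function with integral values on the complex
embeddings of `K`, invariant under complex conjugation. A CM type `Φ` of `K`, `M` and a real number
`κ ≠ 0` prescribe the slopes `(a + κ M) / 2` (at the embeddings in `Φ`) and `(a - κ M) / 2` (outside of
`Φ`) of a Weil number in `K`. Every Weil number in `K` has slopes of this form, so this is no
restriction; `M` is the distance of the slopes from `a / 2`, and `Φ` contains the signs.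

Starting theorems for this conjecture (`AlmostAllSlopeTypes`, `AllCMFields`) treat all but a small
proportion of the CM types `Φ`, for nonzero `M`, and the bound depends on `K`. Here we find conditions
on the weights `M` alone under which there are no exceptional types at all, for any CM field `K`, with
any Galois group and any subfields. The weights may be zero. The weights `M` are rigid
(`IsRigid`) if one of the following holds.

* `dominant`: one weight is larger than the sum of the other weights: for some `φ₀` the sum of `|M φ|`
  over the embeddings `φ` different from `φ₀` and its conjugate is less than `2 |M φ₀|` (each weight
  occurs in this sum twice, for `φ` and its conjugate). For example all slopes but those at one pair of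
  conjugate embeddings are `a / 2` (abelian varieties of K3 type, Zarhin).
* `oneUnit`: `l`-adically one weight dominates: for some prime number `l` and some `k` all weights are
  divisible by `l ^ k` and all but the one at `φ₀` (and its conjugate) by `l ^ (k + 1)`.
* `oneEven`: all weights are divisible by `2 ^ k`, the weight at `φ₀` is divisible by `2 ^ (k + 1)` and
  the other weights are not, and `g` is even, or no sum of the `g` weights with signs vanishes, or `K`
  contains no imaginary quadratic field. For example all slopes are `0` or `a` but those at one pair of
  conjugate embeddings, which are `a / 2` (`M φ₀ = 0`, the others `1`: almost ordinary abelian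
  varieties, Lenstra and Zarhin).
* `primePower`: `g` is a power of the prime number `l`, all weights are divisible by `l ^ k`, and no
  sum of the `g` weights with signs is divisible by `l ^ (k + 1)`. (For `l = 2` this means that an
  odd number of the `g` numbers `M / 2 ^ k` are odd.)

**Theorem.** Let `K i` be finitely many CM fields that are pairwise independent (for `i ≠ k` and all
complex embeddings `φ` of `K i` and `ψ` of `K k` some automorphism of `ℂ` is the identity on `φ (K i)` and
the complex conjugation on `ψ (K k)`; this is no condition for one field), with rigid weights `M i` and
any CM types `Φ i`. Let `Y` be any abelian variety each of whose factors is supersingular or has a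
Frobenius endomorphism some power of which is, for some `i`, a Weil number in `K i` with the slopes
prescribed by `Φ i`, `M i` and some real number `κ i ≠ 0` (`OfTypes`). So `Y` is, over an algebraic
closure, isogenous to a product of any powers of one abelian variety for each `i`, with the given
slopes, and of a supersingular one. Then all Tate classes on `Y`, of all degrees and over all finite
extensions of the base field, are in `Alg Ω Y`; the classes in `Alg Ω Y` are algebraic: it is the span of
the classes that are obtained from classes of divisors (and the split Weil classes of degree four and
six of the liftings, which are algebraic by Markman) by cup products, pull-backs and push-forwards. So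
the Tate conjecture is true for `Y`.

The proof. If it is false, the sign function of one of the types, multiplied by `M`, is orthogonal to a
nonzero rational function `b` on the embeddings and to all its translates by the automorphisms of `ℂ`,
where `b` changes its sign under complex conjugation. The group that is generated by the translations
is transitive. (1) If one weight dominates in the archimedean or in an `l`-adic absolute value, look at
a relation in which the weight is multiplied by the largest value of `b`. (2) If one weight is even and
the others are odd, then modulo two all values of a primitive multiple of `b` are equal to their sum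
over a CM type; so `b` has no zeros, and the space of these functions has dimension one: this gives an
imaginary quadratic subfield and a vanishing sum, or, if `g` is even, a contradiction modulo two.
(3) If `g` is a power of `l`, a Sylow `l`-subgroup of the permutation group is transitive on the pairs
of conjugate embeddings, and it fixes a nonzero relation modulo `l`; its coefficients are constant on a
CM type up to sign, which gives a sum of weights with signs that is divisible by `l ^ (k + 1)`.
-/

set_option autoImplicit false

namespace Pool.Agent.Results.MP_ee618e_ag.RigidSlopes

open NumberField Module Pool.Agent.H204R3.CM Pool.Agent.H977R3.CM Pool.Agent.TH170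
  Pool.Agent.K7.H7.AS

open Pool.Agent.W495.TA Pool.Agent.W547.KB

/-- The Tate conjecture for all abelian varieties `Y` with the slope types `Φ`: all Tate classes over
finite extensions are in `Alg Ω Y`. -/
def Holds {p : ℕ} [Fact p.Prime] (ν : PadicAlgCl p ≃+* ℂ) {I : Type} (K : I → Type)
    [∀ i, Field (K i)] (M : ∀ i, (K i →+* ℂ) → ℤ) (Φ : ∀ i, Set (K i →+* ℂ)) : Prop :=
  ∀ (Ω : Type) [Field Ω] [CharZero Ω] [IsAlgClosed Ω] (Y : RedAV p ν), GS.OfTypes K M Φ Y →
    ∀ (s m : ℕ) (f : (TM Ω Y) [⋀^Fin (2 * m)]→ₗ[Ω] Ω), 0 < s → IsTateClass Ω Y s m f →
      Alg Ω Y (Fin (2 * m)) f

/-- **The Tate conjecture for all abelian varieties over finite fields with rigid slopes.** -/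
theorem result (p : ℕ) [Fact p.Prime] (ν : PadicAlgCl p ≃+* ℂ) (I : Type) [Fintype I]
    (K : I → Type) [∀ i, Field (K i)] [∀ i, NumberField (K i)] [∀ i, IsCMField (K i)]
    (hK : PairwiseIndep K) (M : ∀ i, (K i →+* ℂ) → ℤ)
    (hM : ∀ i φ, M i (ComplexEmbedding.conjugate φ) = M i φ) (hR : ∀ i, IsRigid (M i))
    (Φ : ∀ i, Set (K i →+* ℂ)) (hΦ : ∀ i, IsCMType (Φ i)) : Holds ν K M Φ := by
  intro Ω _ _ _ Y hY s m f hs hf
  refine TH117.BL.elementary Y (GS.elementary_of_types hK hM hΦ
    (fun i => nondeg (hM i) (hR i) (hΦ i)) hY) Ω Y (fun k => Or.inr
    ⟨k, RingHom.id _, 1, 1, one_pos, one_pos, rfl, rfl⟩) s m hs f hf

end Pool.Agent.Results.MP_ee618e_ag.RigidSlopes
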